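import Mathlib

/-!
Common zeros of few polynomials, and algebraic dependence of many polynomials.
-/

namespace Helper47.Rig

open MvPolynomial

universe u

/-- translation -/
lemma height_vanishing_eq {k : Type u} [Field k] {v : ℕ} (a : Fin v → k) :
    (vanishingIdeal k ({a} : Set (Fin v → k)) : Ideal (MvPolynomial (Fin v) k)).height =
      (vanishingIdeal k ({0} : Set (Fin v → k)) : Ideal (MvPolynomial (Fin v) k)).height := by
  let τ : MvPolynomial (Fin v) k ≃ₐ[k] MvPolynomial (Fin v) k :=
    AlgEquiv.ofAlgHom (aeval fun i => X i + C (a i)) (aeval fun i => X i - C (a i))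
      (by ext i; simp) (by ext i; simp)
  have h : (vanishingIdeal k ({a} : Set (Fin v → k)) : Ideal (MvPolynomial (Fin v) k)) =
      (vanishingIdeal k ({0} : Set (Fin v → k)) : Ideal (MvPolynomial (Fin v) k)).comap
        τ.toRingEquiv := by
    ext f
    rw [Ideal.mem_comap, mem_vanishingIdeal_singleton_iff, mem_vanishingIdeal_singleton_iff]
    have h1 : aeval (0 : Fin v → k) (τ f) = aeval a f := by
      have h2 : (aeval (0 : Fin v → k)).comp τ.toAlgHom = aeval (R := k) a := by
        ext i
        simp [τ]
      rw [← h2]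
      rfl
    change _ ↔ aeval (0 : Fin v → k) (τ f) = 0
    rw [h1]
  rw [h, RingEquiv.height_comap]

theorem exists_common_zero {k : Type u} [Field k] [IsAlgClosed k] {v m : ℕ} (h : m < v)
    (q : Fin m → MvPolynomial (Fin v) k) (h0 : ∀ i, eval 0 (q i) = 0) :
    ∃ z : Fin v → k, z ≠ 0 ∧ ∀ i, eval z (q i) = 0 := by
  by_contra hcon
  push Not at hcon
  set I : Ideal (MvPolynomial (Fin v) k) := Ideal.span (Set.range q) with hI
  have hz : zeroLocus k I = {0} := by
    rw [hI, zeroLocus_span]
    ext z
    simp only [Set.mem_range, forall_exists_index, forall_apply_eq_imp_iff, Set.mem_setOf_eq,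
      Set.mem_singleton_iff]
    constructor
    · intro hz
      by_contra hz0
      obtain ⟨i, hi⟩ := hcon z hz0
      exact hi (hz i)
    · rintro rfl i
      exact h0 i
  set M : Ideal (MvPolynomial (Fin v) k) := vanishingIdeal k ({0} : Set (Fin v → k)) with hM
  have hrad : I.radical = M := by
    rw [← vanishingIdeal_zeroLocus_eq_radical (K := k), hz]
  have hmin : M ∈ I.minimalPrimes := by
    rw [← Ideal.radical_minimalPrimes, hrad]
    haveI : M.IsPrime := inferInstance
    rw [Ideal.minimalPrimes_eq_subsingleton_self]
    rfl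
  have hle : M.height ≤ m := by
    refine (Ideal.height_le_card_of_mem_minimalPrimes_span (Set.finite_range q) hmin).trans ?_
    have : (Set.range q).ncard ≤ m := by
      have := Set.ncard_image_le (f := q) (Set.finite_univ)
      rw [Set.image_univ, Set.ncard_univ, Nat.card_eq_fintype_card, Fintype.card_fin] at this
      exact this
    exact_mod_cast this
  have hdim : ringKrullDim (MvPolynomial (Fin v) k) ≤ (m : WithBot ℕ∞) := by
    rw [ringKrullDim_le_iff_isMaximal_height_le]
    intro P hP
    obtain ⟨a, rfl⟩ := isMaximal_iff_eq_vanishingIdeal_singleton.1 hP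
    rw [height_vanishing_eq]
    exact_mod_cast hle
  rw [MvPolynomial.ringKrullDim_of_isNoetherianRing, ringKrullDim_eq_zero_of_field, zero_add,
    Nat.card_eq_fintype_card, Fintype.card_fin] at hdim
  have : v ≤ m := by exact_mod_cast hdim
  omega

theorem exists_alg_relation {k : Type u} [Field k] {σ τ : Type} [Fintype σ] [Fintype τ]
    (h : Fintype.card τ < Fintype.card σ) (q : σ → MvPolynomial τ k) :
    ∃ F : MvPolynomial σ k, F ≠ 0 ∧ bind₁ q F = 0 := by
  by_contra hcon
  push Not at hcon
  have hind : AlgebraicIndependent k q := by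
    rw [algebraicIndependent_iff]
    intro F hF
    by_contra hne
    exact hcon F hne hF
  have h1 := hind.lift_cardinalMk_le_trdeg
  rw [MvPolynomial.trdeg_of_isDomain] at h1
  simp only [Cardinal.mk_fintype, Cardinal.lift_natCast, Nat.cast_le] at h1
  omega

end Helper47.Rig
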