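import Mathlib

/-!
Definitions for MP_16b052_ag: points of `Alg_r` and rigidity.
-/

namespace Helper47.Rig

open MvPolynomial Module

universe u v

/-- A candidate point of `Alg_r`: structure constants `mul i j l` (the coefficient of the `l`-th
basis vector in the product of the `i`-th and `j`-th ones) and the coordinates `one i` of the
unit element. -/
@[ext]
structure Tab (k : Type u) (r : ℕ) where
  mul : Fin r → Fin r → Fin r → k
  one : Fin r → k

/-- The coordinates of a table, as a function on the index set
`(Fin r × Fin r × Fin r) ⊕ Fin r`. -/
def Tab.coord {k : Type u} {r : ℕ} (p : Tab k r) : (Fin r × Fin r × Fin r) ⊕ Fin r → k :=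
  Sum.elim (fun x => p.mul x.1 x.2.1 x.2.2) p.one

/-- `p` is a point of `Alg_r`: its structure constants satisfy the identities of commutativity,
associativity and unit. -/
structure IsAlg {k : Type u} [Field k] {r : ℕ} (p : Tab k r) : Prop where
  comm : ∀ i j l, p.mul i j l = p.mul j i l
  assoc : ∀ i j l n, ∑ m, p.mul i j m * p.mul m l n = ∑ m, p.mul j l m * p.mul i m n
  unit : ∀ j l, ∑ i, p.one i * p.mul i j l = if j = l then 1 else 0

/-- `p` is the multiplication table of the algebra `A` in some basis.  The set of these `p` is the
`GL_r(k)`-orbit in `Alg_r` of the points which represent `A`. -/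
def Represents {k : Type u} [Field k] {r : ℕ} (A : Type v) [CommRing A] [Algebra k A]
    (p : Tab k r) : Prop :=
  ∃ b : Basis (Fin r) k A, (∀ i j, b i * b j = ∑ l, p.mul i j l • b l) ∧
    (1 : A) = ∑ i, p.one i • b i

/-- The algebra `A` is rigid: with `r = dim A`, the set of the points of `Alg_r` which represent
`A` (one `GL_r(k)`-orbit) is open in `Alg_r` for the Zariski topology, that is, its complement in
`Alg_r` is the set of the common zeros in `Alg_r` of a set of polynomials. -/
def Rigid (k : Type u) [Field k] (A : Type v) [CommRing A] [Algebra k A] : Prop :=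
  ∃ S : Set (MvPolynomial ((Fin (finrank k A) × Fin (finrank k A) × Fin (finrank k A)) ⊕
      Fin (finrank k A)) k),
    ∀ p : Tab k (finrank k A), IsAlg p →
      (Represents A p ↔ ∃ f ∈ S, MvPolynomial.eval p.coord f ≠ 0)

end Helper47.Rig
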