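import Pool.Agent.Helper47.Rig.Split

namespace Helper47.Rig

open Module IsLocalRing

universe u v

variable {k : Type u} [Field k] {A : Type v} [CommRing A] [Algebra k A]

open Polynomial in
theorem not_rigid_arc [Infinite k] [Module.Finite k A] [IsLocalRing A] (ε : A →ₐ[k] k)
    (P : A →ₗ[k] k[X]) (n : ℕ) (hn : 1 ≤ n) (s : A) (hP1 : P 1 = 1) (hPs : P s = X ^ n)
    (hPmul : ∀ a b, X ^ (n + 1) ∣ P a * P b - P (a * b)) (hs : ∀ a, s * a = ε a • s)
    (hεs : ε s = 0) : ¬ Rigid k A := by
  let χ : k → (A →ₗ[k] k) := fun t => (Polynomial.leval t) ∘ₗ P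
  have hχ : ∀ t a, χ t a = (P a).eval t := fun t a => rfl
  have hχ1 : ∀ t, χ t 1 = 1 := fun t => by rw [hχ, hP1, eval_one]
  have hχs : ∀ t, χ t s = t ^ n := fun t => by rw [hχ, hPs, eval_pow, eval_X]
  let Q : k → (A →ₗ[k] A →ₗ[k] A) := fun t =>
    rk (χ t) (χ t) s - (LinearMap.mul k A).compr₂ ((χ t).smulRight s)
  have hQ : ∀ t a b, Q t a b = (χ t a * χ t b - χ t (a * b)) • s := by
    intro t a b
    simp [Q, sub_smul]
  let M : (Unit → k) → (A →ₗ[k] A →ₗ[k] A) := fun x =>
    LinearMap.mul k A + ((x ()) ^ n)⁻¹ • Q (x ())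
  have hMapp : ∀ x a b, M x a b = a * b + (((x ()) ^ n)⁻¹ *
      (χ (x ()) a * χ (x ()) b - χ (x ()) (a * b))) • s := by
    intro x a b
    simp [M, hQ, smul_smul]
  have hM0 : ∀ x, x () = 0 → ∀ a b, M x a b = a * b := by
    intro x hx a b
    rw [hMapp, hx, zero_pow (by omega), inv_zero, zero_mul, zero_smul, add_zero]
  have hMul : ∀ x, IsMul (M x) := by
    intro x
    have hcomm : ∀ a b, M x a b = M x b a := fun a b => by
      rw [hMapp, hMapp, mul_comm a b, mul_comm (χ (x ()) a)]
    by_cases ht0 : x () = 0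
    · refine ⟨hcomm, fun a b c => ?_, fun a => ?_⟩
      · rw [hM0 x ht0, hM0 x ht0, hM0 x ht0, hM0 x ht0, mul_assoc]
      · rw [hM0 x ht0, one_mul]
    set t := x () with ht
    have htn : t ^ n ≠ 0 := pow_ne_zero _ ht0
    have hM1 : ∀ a b c, M x (M x a b) c = a * b * c +
        ((t ^ n)⁻¹ * (χ t a * χ t b * χ t c - χ t (a * b * c))) • s := by
      intro a b c
      rw [hMapp x a b, hMapp, ← ht]
      simp only [map_add, map_smul, smul_eq_mul, add_mul, smul_mul_assoc, hs, hχs]
      match_scalars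
      · ring
      · field_simp
        ring
    refine ⟨hcomm, fun a b c => ?_, fun a => ?_⟩
    · rw [hcomm a (M x b c), hM1, hM1, show b * c * a = a * b * c by ring]
      module
    · rw [hMapp, hχ1, one_mul, one_mul, sub_self, mul_zero, zero_smul, add_zero]
  have hM00 : ∀ a b, M (fun _ => 0) a b = a * b := hM0 (fun _ => 0) rfl
  have hX0 : (MvPolynomial.X () : MvPolynomial Unit k) ≠ 0 := MvPolynomial.X_ne_zero _
  clear_value M
  refine not_rigid_of_family M ?_ hMul (fun _ => 0) hM00 (MvPolynomial.X ()) hX0 ?_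
  · intro ξ a b
    obtain ⟨r, hr⟩ := hPmul a b
    refine ⟨MvPolynomial.C (ξ (a * b)) +
      (aeval (MvPolynomial.X () : MvPolynomial Unit k) (X * r)) * MvPolynomial.C (ξ s),
      fun x => ?_⟩
    have h1 : χ (x ()) a * χ (x ()) b - χ (x ()) (a * b) = (x ()) ^ (n + 1) * r.eval (x ()) := by
      rw [hχ, hχ, hχ, ← eval_mul, ← eval_sub, hr, eval_mul, eval_pow, eval_X]
    have h2 : MvPolynomial.eval x (aeval (MvPolynomial.X () : MvPolynomial Unit k) (X * r)) =
        x () * r.eval (x ()) := by
      have h3 : MvPolynomial.eval x (aeval (MvPolynomial.X () : MvPolynomial Unit k) (X * r)) =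
        aeval (x ()) (X * r) := by
        rw [← MvPolynomial.coe_aeval_eq_eval, RingHom.coe_coe, ← Polynomial.aeval_algHom_apply]
        simp
      rw [h3, map_mul, aeval_X, Polynomial.coe_aeval_eq_eval]
    rw [hMapp, h1, map_add, map_smul, (MvPolynomial.eval x).map_add,
      (MvPolynomial.eval x).map_mul, h2, MvPolynomial.eval_C,
      MvPolynomial.eval_C, smul_eq_mul]
    congr 2
    by_cases ht0 : x () = 0
    · rw [ht0, zero_pow (by omega), inv_zero, zero_mul, zero_mul]
    · field_simp
      ring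
  · intro x hx hiso
    rw [MvPolynomial.eval_X] at hx
    set t := x () with ht
    have htn : t ^ n ≠ 0 := pow_ne_zero _ hx
    have hss : s * s = 0 := by rw [hs, hεs, zero_smul]
    have hMss : M x s s = t ^ n • s := by
      rw [hMapp, hss, ← ht, hχs, map_zero]
      match_scalars
      field_simp
      ring
    have hidem : M x ((t ^ n)⁻¹ • s) ((t ^ n)⁻¹ • s) = (t ^ n)⁻¹ • s := by
      simp only [map_smul, LinearMap.smul_apply, hMss, smul_smul]
      congr 1
      field_simp
    have hs0 : s ≠ 0 := by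
      intro h
      rw [h, map_zero] at hPs
      exact pow_ne_zero n X_ne_zero hPs.symm
    rcases idem_of_isoMul (hMul x) hiso hidem with h | h
    · rw [smul_eq_zero] at h
      rcases h with h | h
      · exact inv_ne_zero htn h
      · exact hs0 h
    · have := congrArg ε h
      rw [map_smul, hεs, map_one, smul_zero] at this
      exact zero_ne_one this

end Helper47.Rig
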