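import Pool.Agent.Helper47.Rig.Intr

namespace Helper47.Rig

open Module IsLocalRing

universe u v

variable {k : Type u} [Field k] {A : Type v} [CommRing A] [Algebra k A]

open Polynomial in
/-- If a homomorphism `A → k[X]/(X^N)` does not kill some socle element `s`, then `A` is not
rigid. -/
theorem not_rigid_of_arc [IsAlgClosed k] [Module.Finite k A] [IsLocalRing A] (N : ℕ)
    (χ : A →ₐ[k] (k[X] ⧸ Ideal.span {(X : k[X]) ^ N})) (s : A) (hsm : s ∈ maximalIdeal A)
    (hs : ∀ a ∈ maximalIdeal A, s * a = 0) (hχ : χ s ≠ 0) : ¬ Rigid k A := by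
  classical
  haveI : Infinite k := IsAlgClosed.instInfinite
  obtain ⟨ε, hε⟩ := exists_aug (k := k) (A := A)
  have hεs : ε s = 0 := (hε s).1 hsm
  have hsa : ∀ a, s * a = ε a • s := by
    intro a
    have h1 := hs (a - ε a • 1) (by
      rw [hε, map_sub, map_smul, map_one, smul_eq_mul, mul_one, sub_self])
    rw [mul_sub, mul_smul_comm, mul_one, sub_eq_zero] at h1
    exact h1
  choose r hr using fun a => Ideal.Quotient.mk_surjective (χ a)
  have hdvd : ∀ x y : k[X], Ideal.Quotient.mk (Ideal.span {(X : k[X]) ^ N}) x =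
      Ideal.Quotient.mk (Ideal.span {(X : k[X]) ^ N}) y → X ^ N ∣ x - y := by
    intro x y h
    rwa [Ideal.Quotient.eq, Ideal.mem_span_singleton] at h
  have hps : ∃ i, i < N ∧ (r s).coeff i ≠ 0 := by
    by_contra hcon
    push Not at hcon
    apply hχ
    rw [← hr, Ideal.Quotient.eq_zero_iff_mem, Ideal.mem_span_singleton, X_pow_dvd_iff]
    exact hcon
  obtain ⟨n, ⟨hnN, hn0⟩, hmin⟩ : ∃ n, (n < N ∧ (r s).coeff n ≠ 0) ∧
      ∀ m < n, (r s).coeff m = 0 := by
    refine ⟨Nat.find hps, Nat.find_spec hps, fun m hm => ?_⟩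
    by_contra hcon
    exact Nat.find_min hps hm ⟨lt_trans hm (Nat.find_spec hps).1, hcon⟩
  have hq : (X ^ (n + 1) : k[X]).Monic := monic_X_pow _
  have hXN : (X ^ (n + 1) : k[X]) ∣ X ^ N := pow_dvd_pow _ (by omega)
  have hmod : ∀ x y : k[X], Ideal.Quotient.mk (Ideal.span {(X : k[X]) ^ N}) x =
      Ideal.Quotient.mk (Ideal.span {(X : k[X]) ^ N}) y → x %ₘ X ^ (n + 1) = y %ₘ X ^ (n + 1) := by
    intro x y h
    have h1 : (x - y) %ₘ X ^ (n + 1) = 0 :=
      (modByMonic_eq_zero_iff_dvd hq).2 (hXN.trans (hdvd x y h))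
    rw [sub_modByMonic, sub_eq_zero] at h1
    exact h1
  let P : A →ₗ[k] k[X] :=
    { toFun := fun a => (r a) %ₘ X ^ (n + 1)
      map_add' := fun a b => by
        rw [← add_modByMonic]
        refine hmod _ _ ?_
        rw [map_add, hr, hr, hr, map_add]
      map_smul' := fun c a => by
        rw [RingHom.id_apply, ← smul_modByMonic]
        refine hmod _ _ ?_
        rw [hr, map_smul, ← hr a]
        rfl }
  have hP : ∀ a, P a = (r a) %ₘ X ^ (n + 1) := fun a => rfl
  have hPr : ∀ a, X ^ (n + 1) ∣ r a - P a := by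
    intro a
    have h1 := modByMonic_add_div (r a) (X ^ (n + 1))
    exact ⟨r a /ₘ X ^ (n + 1), by rw [hP]; linear_combination -h1⟩
  have hn1 : 1 ≤ n := by
    by_contra hcon
    have hn : n = 0 := by omega
    subst hn
    have h1 : s * s = 0 := hs s hsm
    have h2 : Ideal.Quotient.mk (Ideal.span {(X : k[X]) ^ N}) (r s * r s) =
        Ideal.Quotient.mk (Ideal.span {(X : k[X]) ^ N}) 0 := by
      rw [map_mul, hr, ← map_mul, h1, map_zero, map_zero]
    have h3 := hdvd _ _ h2
    rw [sub_zero, X_pow_dvd_iff] at h3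
    have h4 := h3 0 (by omega)
    rw [mul_coeff_zero] at h4
    exact hn0 (mul_self_eq_zero.1 h4)
  have hPs : P s = (r s).coeff n • X ^ n := by
    rw [hP]
    have h1 : X ^ (n + 1) ∣ r s - (r s).coeff n • X ^ n := by
      rw [X_pow_dvd_iff]
      intro d hd
      rw [coeff_sub, coeff_smul, coeff_X_pow, smul_eq_mul]
      rcases Nat.lt_succ_iff_lt_or_eq.1 hd with h | h
      · rw [hmin d h, if_neg (by omega), mul_zero, sub_zero]
      · rw [h, if_pos rfl, mul_one, sub_self]
    have h2 := (modByMonic_eq_zero_iff_dvd hq).2 h1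
    rw [sub_modByMonic, sub_eq_zero] at h2
    rw [h2, (modByMonic_eq_self_iff hq)]
    refine lt_of_le_of_lt (degree_smul_le _ _) ?_
    rw [degree_X_pow, degree_X_pow]
    exact_mod_cast Nat.lt_succ_self n
  set c := (r s).coeff n with hc
  refine not_rigid_arc ε P n hn1 (c⁻¹ • s) ?_ ?_ ?_ ?_ ?_
  · have h1 : P 1 = (1 : k[X]) %ₘ X ^ (n + 1) := by
      rw [hP]
      refine hmod _ _ ?_
      rw [hr, map_one, map_one]
    rw [h1, (modByMonic_eq_self_iff hq), degree_one, degree_X_pow]
    exact_mod_cast Nat.succ_pos n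
  · rw [map_smul, hPs, smul_smul, inv_mul_cancel₀ hn0, one_smul]
  · intro a b
    have h1 : X ^ (n + 1) ∣ r a * r b - r (a * b) := by
      refine hXN.trans (hdvd _ _ ?_)
      rw [map_mul, hr, hr, hr, map_mul]
    have h2 : P a * P b - P (a * b) = (r a * r b - r (a * b)) - (r a - P a) * r b -
        P a * (r b - P b) + (r (a * b) - P (a * b)) := by ring
    rw [h2]
    exact dvd_add (dvd_sub (dvd_sub h1 (dvd_mul_of_dvd_left (hPr a) _))
      (dvd_mul_of_dvd_right (hPr b) _)) (hPr _)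
  · intro a
    rw [smul_mul_assoc, hsa, smul_comm]
  · rw [map_smul, hεs, smul_zero]

end Helper47.Rig
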