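import Pool.Agent.Helper47.Rig.Prod
import Pool.Agent.Helper47.Rig.IntrArc
import Pool.Agent.Helper47.Rig.Zero

namespace Helper47.Rig

open Module IsLocalRing

universe u v

variable {k : Type u} [Field k] {A : Type v} [CommRing A] [Algebra k A] [IsLocalRing A]
  {ε : A →ₐ[k] k} {v w : ℕ}

lemma soc_formula (hε : ∀ a, a ∈ maximalIdeal A ↔ ε a = 0) (h3 : maximalIdeal A ^ 3 = ⊥) {s : A}
    (hs : s ∈ (maximalIdeal A) ^ 2) (a : A) : s * a = ε a • s := by
  have h1 : (a - ε a • 1) * s = 0 := mul_zero_of h3 (by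
    rw [hε, map_sub, map_smul, map_one, smul_eq_mul, mul_one, sub_self]) hs
  rw [sub_mul, smul_mul_assoc, one_mul, sub_eq_zero] at h1
  rw [mul_comm, h1]

open Polynomial in
/-- rank one form -/
theorem Dec.not_rigid_rank_one [IsAlgClosed k] [Module.Finite k A] (D : Dec ε v w)
    (hε : ∀ a, a ∈ maximalIdeal A ↔ ε a = 0) (h3 : maximalIdeal A ^ 3 = ⊥) (z : Fin v → k)
    (hz : z ≠ 0) (c : Fin w → k) (hc : ∀ i j, ∑ r, c r * D.β i j r = z i * z j) :
    ¬ Rigid k A := by
  haveI : Infinite k := IsAlgClosed.instInfinite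
  obtain ⟨i₀, hi₀⟩ : ∃ i, z i ≠ 0 := by
    by_contra hcon
    push Not at hcon
    exact hz (funext hcon)
  let l : A →ₗ[k] k := ∑ i, z i • D.l i
  let μ : A →ₗ[k] k := ∑ r, c r • D.μ r
  have hl : ∀ a, l a = ∑ i, z i * D.l i a := fun a => by simp [l]
  have hμ : ∀ a, μ a = ∑ r, c r * D.μ r a := fun a => by simp [μ]
  have hl1 : l 1 = 0 := by rw [hl]; simp [D.l1]
  have hμ1 : μ 1 = 0 := by rw [hμ]; simp [D.μ1]
  have hl2 : ∀ a ∈ (maximalIdeal A) ^ 2, l a = 0 := by
    intro a ha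
    rw [hl]
    exact Finset.sum_eq_zero fun i _ => by rw [D.l2 i a ha, mul_zero]
  have hld := deriv_of_vanish ε hε l hl1 hl2
  have hμd : ∀ a b, μ (a * b) = ε a * μ b + ε b * μ a + l a * l b := by
    intro a b
    rw [hμ, hμ, hμ, hl, hl]
    simp only [D.mu_mul h3, mul_add, Finset.sum_add_distrib]
    congr 1
    · congr 1
      · rw [Finset.mul_sum]
        exact Finset.sum_congr rfl fun i _ => by ring
      · rw [Finset.mul_sum]
        exact Finset.sum_congr rfl fun i _ => by ring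
    · rw [Finset.sum_mul_sum]
      simp only [Finset.mul_sum]
      rw [Finset.sum_comm]
      refine Finset.sum_congr rfl fun i _ => ?_
      rw [Finset.sum_comm]
      refine Finset.sum_congr rfl fun j _ => ?_
      have h2 : ∀ r, c r * (D.l i a * D.l j b * D.β i j r) =
        (D.l i a * D.l j b) * (c r * D.β i j r) := fun r => by ring
      simp only [h2]
      rw [← Finset.mul_sum, hc]
      ring
  have hxx : D.x i₀ * D.x i₀ ∈ (maximalIdeal A) ^ 2 := by
    rw [pow_two]; exact Ideal.mul_mem_mul (D.hx i₀) (D.hx i₀)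
  set s : A := (z i₀ * z i₀)⁻¹ • (D.x i₀ * D.x i₀) with hs
  have hs2 : s ∈ (maximalIdeal A) ^ 2 := Submodule.smul_of_tower_mem _ _ hxx
  have hεs : ε s = 0 := (hε s).1 (Ideal.pow_le_self two_ne_zero hs2)
  have hls : l s = 0 := hl2 s hs2
  have hμs : μ s = 1 := by
    rw [hs, map_smul, hμ]
    have : ∑ r, c r * D.μ r (D.x i₀ * D.x i₀) = z i₀ * z i₀ := hc i₀ i₀
    rw [this, smul_eq_mul, inv_mul_cancel₀ (mul_ne_zero hi₀ hi₀)]
  let P : A →ₗ[k] k[X] :=
    (Polynomial.monomial 0) ∘ₗ ε.toLinearMap + (Polynomial.monomial 1) ∘ₗ l +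
      (Polynomial.monomial 2) ∘ₗ μ
  have hP : ∀ a, P a = C (ε a) + C (l a) * X + C (μ a) * X ^ 2 := by
    intro a
    simp [P, ← C_mul_X_pow_eq_monomial]
  refine not_rigid_arc ε P 2 (by norm_num) s ?_ ?_ ?_ (soc_formula hε h3 hs2) hεs
  · rw [hP, map_one, hl1, hμ1]; simp
  · rw [hP, hεs, hls, hμs]; simp
  · intro a b
    refine ⟨C (l a * μ b + μ a * l b) + C (μ a * μ b) * X, ?_⟩
    rw [hP, hP, hP, hld, hμd, map_mul]
    simp only [map_add, map_mul]
    ring

/-- enough forms: a rank one form exists -/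
theorem Dec.exists_rank_one [IsAlgClosed k] (D : Dec ε v w)
    (hε : ∀ a, a ∈ maximalIdeal A ↔ ε a = 0) (h3 : maximalIdeal A ^ 3 = ⊥)
    (hvw : Fintype.card (Sym2 (Fin v)) < w + v) :
    ∃ z : Fin v → k, z ≠ 0 ∧ ∃ c : Fin w → k, ∀ i j, ∑ r, c r * D.β i j r = z i * z j := by
  classical
  -- the linear map from `k^w` to symmetric forms
  let b : Fin w → (Sym2 (Fin v) → k) := fun r =>
    Sym2.lift ⟨fun i j => D.β i j r, fun i j => D.β_symm i j r⟩
  have hb : ∀ r i j, b r s(i, j) = D.β i j r := fun r i j => rfl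
  let R : (Fin w → k) →ₗ[k] (Sym2 (Fin v) → k) := Fintype.linearCombination k b
  have hR : ∀ c i j, R c s(i, j) = ∑ r, c r * D.β i j r := by
    intro c i j
    simp [R, Fintype.linearCombination_apply, Finset.sum_apply, hb]
  have hinj : Function.Injective R := by
    rw [← LinearMap.ker_eq_bot, LinearMap.ker_eq_bot']
    intro c hc
    refine D.indep hε h3 c fun i j => ?_
    rw [← hR, hc]; rfl
  set U := LinearMap.range R with hU
  have hUdim : finrank k U = w := by
    rw [hU, LinearMap.finrank_range_of_inj hinj, finrank_fintype_fun_eq_card, Fintype.card_fin]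
  have hann : finrank k ((Sym2 (Fin v) → k) ⧸ U) = Fintype.card (Sym2 (Fin v)) - w := by
    have := U.finrank_quotient_add_finrank
    rw [hUdim, finrank_fintype_fun_eq_card] at this
    omega
  have hw : w ≤ Fintype.card (Sym2 (Fin v)) := by
    have := U.finrank_le
    rwa [hUdim, finrank_fintype_fun_eq_card] at this
  let bQ := finBasis k ((Sym2 (Fin v) → k) ⧸ U)
  let lam : Fin (finrank k ((Sym2 (Fin v) → k) ⧸ U)) → ((Sym2 (Fin v) → k) →ₗ[k] k) :=
    fun m => bQ.coord m ∘ₗ U.mkQ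
  -- the quadrics
  let q : Fin (finrank k ((Sym2 (Fin v) → k) ⧸ U)) → MvPolynomial (Fin v) k := fun m =>
    ∑ σ : Sym2 (Fin v), MvPolynomial.C (lam m (Pi.single σ 1)) *
      (MvPolynomial.X (Quot.out σ).1 * MvPolynomial.X (Quot.out σ).2)
  have hq : ∀ m z, MvPolynomial.eval z (q m) = lam m
      (fun σ => z (Quot.out σ).1 * z (Quot.out σ).2) := by
    intro m z
    rw [LinearMap.pi_apply_eq_sum_univ]
    simp only [q, map_sum, map_mul, MvPolynomial.eval_C, MvPolynomial.eval_X, smul_eq_mul]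
    refine Finset.sum_congr rfl fun σ _ => ?_
    rw [mul_comm]
    congr 2
    ext τ
    simp [Pi.single_apply, eq_comm]
  obtain ⟨z, hz0, hz⟩ := exists_common_zero (k := k) (v := v)
    (m := finrank k ((Sym2 (Fin v) → k) ⧸ U)) (by rw [hann]; omega) q (by
      intro m
      rw [hq]
      have : (fun σ : Sym2 (Fin v) => (0 : Fin v → k) (Quot.out σ).1 *
        (0 : Fin v → k) (Quot.out σ).2) = 0 := by
          funext σ; simp
      rw [this, map_zero])
  refine ⟨z, hz0, ?_⟩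
  have hmem : (fun σ : Sym2 (Fin v) => z (Quot.out σ).1 * z (Quot.out σ).2) ∈ U := by
    rw [← Submodule.Quotient.mk_eq_zero, ← bQ.forall_coord_eq_zero_iff]
    intro m
    have := hz m
    rw [hq] at this
    exact this
  obtain ⟨c, hc⟩ := hmem
  refine ⟨c, fun i j => ?_⟩
  rw [← hR, hc]
  have h1 : s((Quot.out s(i, j)).1, (Quot.out s(i, j)).2) = s(i, j) := Quot.out_eq _
  rw [Sym2.eq_iff] at h1
  change z (Quot.out s(i, j)).1 * z (Quot.out s(i, j)).2 = z i * z j
  rcases h1 with ⟨h1, h2⟩ | ⟨h1, h2⟩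
  · rw [h1, h2]
  · rw [h1, h2, mul_comm]

end Helper47.Rig
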