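import Pool.Agent.Helper47.Rig.Prod
import Pool.Agent.Helper47.Rig.CaseOne

namespace Helper47.Rig

open Module IsLocalRing

universe u v

variable {k : Type u} [Field k] {A : Type v} [CommRing A] [Algebra k A] [IsLocalRing A]
  {ε : A →ₐ[k] k} {v w : ℕ}

/-- the correction term -/
noncomputable def Dec.F (D : Dec ε v w) (x : Sym2 (Fin v) × Fin w → k) : A →ₗ[k] A →ₗ[k] A :=
  ∑ r, ∑ i, ∑ j, (x (s(i, j), r) - D.β i j r) • rk (D.l i) (D.l j) (D.y r)

lemma Dec.F_apply (D : Dec ε v w) (x : Sym2 (Fin v) × Fin w → k) (a b : A) :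
    D.F x a b = ∑ r, ∑ i, ∑ j, ((x (s(i, j), r) - D.β i j r) * (D.l i a * D.l j b)) • D.y r := by
  simp [Dec.F, smul_smul]

lemma Dec.F_comm (D : Dec ε v w) (x : Sym2 (Fin v) × Fin w → k) (a b : A) :
    D.F x a b = D.F x b a := by
  rw [D.F_apply, D.F_apply]
  refine Finset.sum_congr rfl fun r _ => ?_
  rw [Finset.sum_comm]
  refine Finset.sum_congr rfl fun i _ => Finset.sum_congr rfl fun j _ => ?_
  rw [D.β_symm, Sym2.eq_swap, mul_comm (D.l j a)]

lemma Dec.F_mem (D : Dec ε v w) (x : Sym2 (Fin v) × Fin w → k) (a b : A) :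
    D.F x a b ∈ (maximalIdeal A) ^ 2 := by
  rw [D.F_apply]
  exact Ideal.sum_mem _ fun r _ => Ideal.sum_mem _ fun i _ => Ideal.sum_mem _ fun j _ =>
    Submodule.smul_of_tower_mem _ _ (D.hy r)

lemma Dec.F_zero (D : Dec ε v w) (x : Sym2 (Fin v) × Fin w → k) {a : A}
    (ha : a ∈ (maximalIdeal A) ^ 2) (b : A) : D.F x a b = 0 := by
  rw [D.F_apply]
  refine Finset.sum_eq_zero fun r _ => Finset.sum_eq_zero fun i _ =>
    Finset.sum_eq_zero fun j _ => ?_
  rw [D.l2 i a ha, zero_mul, mul_zero, zero_smul]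

lemma Dec.F_one (D : Dec ε v w) (x : Sym2 (Fin v) × Fin w → k) (b : A) : D.F x 1 b = 0 := by
  rw [D.F_apply]
  refine Finset.sum_eq_zero fun r _ => Finset.sum_eq_zero fun i _ =>
    Finset.sum_eq_zero fun j _ => ?_
  rw [D.l1 i, zero_mul, mul_zero, zero_smul]

lemma Dec.F_mul (D : Dec ε v w) (hε : ∀ a, a ∈ maximalIdeal A ↔ ε a = 0)
    (x : Sym2 (Fin v) × Fin w → k) (a b c : A) :
    D.F x (a * b) c = ε a • D.F x b c + ε b • D.F x a c := by
  rw [D.F_apply, D.F_apply, D.F_apply]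
  simp only [Finset.smul_sum, ← Finset.sum_add_distrib]
  refine Finset.sum_congr rfl fun r _ => Finset.sum_congr rfl fun i _ =>
    Finset.sum_congr rfl fun j _ => ?_
  rw [deriv_of_vanish ε hε (D.l i) (D.l1 i) (D.l2 i) a b]
  module

/-- the family -/
noncomputable def Dec.M (D : Dec ε v w) (x : Sym2 (Fin v) × Fin w → k) : A →ₗ[k] A →ₗ[k] A :=
  LinearMap.mul k A + D.F x

lemma Dec.M_apply (D : Dec ε v w) (x : Sym2 (Fin v) × Fin w → k) (a b : A) :
    D.M x a b = a * b + D.F x a b := by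
  simp [Dec.M]

lemma Dec.isMul (D : Dec ε v w) (hε : ∀ a, a ∈ maximalIdeal A ↔ ε a = 0)
    (h3 : maximalIdeal A ^ 3 = ⊥) (x : Sym2 (Fin v) × Fin w → k) : IsMul (D.M x) := by
  have hcomm : ∀ a b, D.M x a b = D.M x b a := fun a b => by
    rw [D.M_apply, D.M_apply, mul_comm, D.F_comm]
  have hM1 : ∀ a b c, D.M x (D.M x a b) c = a * b * c + (ε c • D.F x a b + (ε a • D.F x b c +
      ε b • D.F x a c)) := by
    intro a b c
    rw [D.M_apply, D.M_apply, add_mul, soc_formula hε h3 (D.F_mem x a b), map_add,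
      LinearMap.add_apply, D.F_zero x (D.F_mem x a b), D.F_mul hε]
    abel
  refine ⟨hcomm, fun a b c => ?_, fun a => ?_⟩
  · rw [hcomm a (D.M x b c), hM1, hM1, show b * c * a = a * b * c by ring, D.F_comm x c a,
      D.F_comm x b a]
    abel
  · rw [D.M_apply, one_mul, D.F_one, add_zero]

open MvPolynomial in
lemma Dec.polyFam (D : Dec ε v w) : PolyFam (fun x => D.M x) := by
  intro ξ a b
  refine ⟨C (ξ (a * b)) + ∑ r, ∑ i, ∑ j, ((X (s(i, j), r) - C (D.β i j r)) *
    C (D.l i a * D.l j b)) * C (ξ (D.y r)), fun x => ?_⟩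
  rw [D.M_apply, D.F_apply]
  simp only [map_add, map_sum, map_smul, eval_C, eval_mul, eval_X, map_mul, map_sub, smul_eq_mul]

omit [IsLocalRing A] in
lemma isoMul_one {m : A →ₗ[k] A →ₗ[k] A} (hm : IsMul m) {φ : A ≃ₗ[k] A}
    (hφ : ∀ a b, φ (m a b) = φ a * φ b) : φ 1 = 1 := by
  obtain ⟨z, hz⟩ := φ.surjective 1
  have := hφ 1 z
  rw [hm.one_mul, hz, mul_one] at this
  exact this.symm

lemma Dec.iso_formula (D : Dec ε v w) (hε : ∀ a, a ∈ maximalIdeal A ↔ ε a = 0)
    (h3 : maximalIdeal A ^ 3 = ⊥) (x : Sym2 (Fin v) × Fin w → k) (hiso : IsoMul (D.M x)) :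
    ∃ (g : Fin v → Fin v → k) (h : Fin w → Fin w → k), ∀ i j t,
      x (s(i, j), t) = ∑ p, ∑ q, ∑ r, g p i * g q j * D.β p q r * h t r := by
  obtain ⟨φ, hφ⟩ := hiso
  have hm := D.isMul hε h3 x
  have hφ1 : φ 1 = 1 := isoMul_one hm hφ
  have hpow : ∀ a ∈ maximalIdeal A, φ a ∈ maximalIdeal A := by
    intro a ha
    have h1 : D.M x a a ∈ (maximalIdeal A) ^ 2 := by
      rw [D.M_apply]
      refine Ideal.add_mem _ ?_ (D.F_mem x a a)
      rw [pow_two]; exact Ideal.mul_mem_mul ha ha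
    have h2 : D.M x (D.M x a a) a = 0 := by
      rw [D.M_apply, D.F_zero x h1, add_zero, mul_comm]
      exact mul_zero_of h3 ha h1
    have h3' : φ a ^ 3 = 0 := by
      rw [pow_succ, pow_two, ← hφ, ← hφ, h2, map_zero]
    rw [mem_maximalIdeal, mem_nonunits_iff]
    intro hu
    have := hu.pow 3
    rw [h3'] at this
    exact not_isUnit_zero this
  have hpow' : ∀ a ∈ maximalIdeal A, φ.symm a ∈ maximalIdeal A := by
    intro a ha
    set n := φ.symm a with hn
    have h1 : n - ε n • 1 ∈ maximalIdeal A := by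
      rw [hε, map_sub, map_smul, map_one, smul_eq_mul, mul_one, sub_self]
    have h2 := hpow _ h1
    rw [map_sub, map_smul, hφ1, hn, φ.apply_symm_apply, ← hn] at h2
    rw [hε, map_sub, (hε a).1 ha, map_smul, map_one] at h2
    rw [hε]
    simpa using h2
  have hsymm : ∀ a b, φ.symm (a * b) = D.M x (φ.symm a) (φ.symm b) := by
    intro a b
    rw [LinearEquiv.symm_apply_eq, hφ, φ.apply_symm_apply, φ.apply_symm_apply]
  have hsq : ∀ a ∈ (maximalIdeal A) ^ 2, φ.symm a ∈ (maximalIdeal A) ^ 2 := by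
    intro a ha
    rw [pow_two] at ha
    induction ha using Submodule.mul_induction_on' with
    | mem_mul_mem a ha b hb =>
      rw [hsymm, D.M_apply]
      refine Ideal.add_mem _ ?_ (D.F_mem x _ _)
      rw [pow_two]; exact Ideal.mul_mem_mul (hpow' a ha) (hpow' b hb)
    | add a _ b _ ha hb => rw [map_add]; exact Ideal.add_mem _ ha hb
  refine ⟨fun p i => D.l p (φ (D.x i)), fun t r => D.μ t (φ.symm (D.y r)), fun i j t => ?_⟩
  have h1 : D.μ t (D.M x (D.x i) (D.x j)) = x (s(i, j), t) := by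
    rw [D.M_apply, map_add, D.F_apply]
    simp only [map_sum, map_smul, D.lx, D.μy, smul_eq_mul, mul_ite, mul_one, mul_zero, ite_mul,
      zero_mul, one_mul]
    have : D.μ t (D.x i * D.x j) = D.β i j t := rfl
    rw [this]
    simp
  have h2 : D.M x (D.x i) (D.x j) = φ.symm (φ (D.x i) * φ (D.x j)) := by
    rw [hsymm, φ.symm_apply_apply, φ.symm_apply_apply]
  rw [← h1, h2, D.prod_formula h3, (hε _).1 (hpow _ (D.hx i)), (hε _).1 (hpow _ (D.hx j))]
  simp only [zero_smul, zero_mul, add_zero, sub_zero, zero_add, map_sum, map_smul, smul_eq_mul]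
  refine Finset.sum_congr rfl fun p _ => Finset.sum_congr rfl fun q _ => ?_
  rw [D.xx hε, map_sum, map_sum, Finset.mul_sum]
  refine Finset.sum_congr rfl fun r _ => ?_
  rw [map_smul, map_smul, smul_eq_mul]
  ring

end Helper47.Rig
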