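import Pool.Agent.Helper47.Rig.Prod

namespace Helper47.Rig

open Module IsLocalRing

universe u v

variable {k : Type u} [Field k] {A : Type v} [CommRing A] [Algebra k A] [IsLocalRing A]
  {ε : A →ₐ[k] k} {v w : ℕ}

lemma exists_pencil [IsAlgClosed k] {n : ℕ} (hn : 0 < n) (M₀ M₁ : Matrix (Fin n) (Fin n) k) :
    ∃ c : Fin 2 → k, c ≠ 0 ∧ ∃ z : Fin n → k, z ≠ 0 ∧
      (c 0 • M₀ + c 1 • M₁).mulVec z = 0 := by
  haveI : Nonempty (Fin n) := ⟨⟨0, hn⟩⟩
  by_cases hdet : M₀.det = 0
  · obtain ⟨z, hz0, hz⟩ := Matrix.exists_mulVec_eq_zero_iff.2 hdet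
    refine ⟨![1, 0], fun h => one_ne_zero (congrFun h 0), z, hz0, ?_⟩
    simpa using hz
  · obtain ⟨c, hc⟩ := Module.End.exists_eigenvalue (Matrix.toLin' (M₀⁻¹ * M₁))
    obtain ⟨z, hz⟩ := hc.exists_hasEigenvector
    have h1 := hz.apply_eq_smul
    rw [Matrix.toLin'_apply] at h1
    refine ⟨![-c, 1], fun h => one_ne_zero (congrFun h 1), z, hz.2, ?_⟩
    have h2 := congrArg M₀.mulVec h1
    rw [Matrix.mulVec_mulVec, ← Matrix.mul_assoc,
      Matrix.mul_nonsing_inv _ (isUnit_iff_ne_zero.2 hdet), Matrix.one_mul,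
      Matrix.mulVec_smul] at h2
    simp [Matrix.add_mulVec, Matrix.neg_mulVec, Matrix.smul_mulVec, h2]

omit [IsLocalRing A] in
lemma finrank_ideal_le {I J : Ideal A} [Module.Finite k A] (h : I ≤ J) :
    finrank k I ≤ finrank k J :=
  Submodule.finrank_mono (s := I.restrictScalars k) (t := J.restrictScalars k) h

omit [IsLocalRing A] in
lemma finrank_ideal_lt {I J : Ideal A} [Module.Finite k A] (h : I < J) :
    finrank k I < finrank k J :=
  Submodule.finrank_lt_finrank_of_lt (s := I.restrictScalars k) (t := J.restrictScalars k)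
    ⟨h.1, fun h' => h.2 h'⟩

theorem Dec.not_rigid_le_two [IsAlgClosed k] [Module.Finite k A] (D : Dec ε v w)
    (hε : ∀ a, a ∈ maximalIdeal A ↔ ε a = 0) (h3 : maximalIdeal A ^ 3 = ⊥)
    (hfin : finrank k ((maximalIdeal A) ^ 2 : Ideal A) = w) (hw : w ≤ 2) (hv : 0 < v) :
    ¬ Rigid k A := by
  have hle : ∀ e ∈ maximalIdeal A, Ideal.span {e} * maximalIdeal A ≤ (maximalIdeal A) ^ 2 := by
    intro e he
    rw [pow_two]
    exact Ideal.mul_mono_left ((Ideal.span_singleton_le_iff_mem _).2 he)
  rcases Nat.lt_or_ge w 2 with hw' | hw'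
  · refine not_rigid_of_finrank_le_one (D.x ⟨0, hv⟩) (D.hx _) ?_ ?_
    · intro h
      have := D.l2 ⟨0, hv⟩ _ h
      rw [D.lx, if_pos rfl] at this
      exact one_ne_zero this
    · have := finrank_ideal_le (k := k) (hle _ (D.hx ⟨0, hv⟩))
      omega
  · obtain rfl : w = 2 := by omega
    obtain ⟨c, hc0, z, hz0, hcz⟩ := exists_pencil (k := k) hv
      (Matrix.of fun j i => D.β i j 0) (Matrix.of fun j i => D.β i j 1)
    have hcz' : ∀ j, ∑ i, (∑ r, c r * D.β i j r) * z i = 0 := by
      intro j
      have := congrFun hcz j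
      simpa [Matrix.mulVec, dotProduct, Fin.sum_univ_two] using this
    set e : A := ∑ i, z i • D.x i with he
    have hem : e ∈ maximalIdeal A :=
      Ideal.sum_mem _ fun i _ => Submodule.smul_of_tower_mem _ _ (D.hx i)
    have hle' : ∀ i, D.l i e = z i := by
      intro i
      rw [he, map_sum]
      simp [D.lx]
    refine not_rigid_of_finrank_le_one e hem ?_ ?_
    · intro h
      apply hz0
      funext i
      rw [← hle' i]
      exact D.l2 i _ h
    · have hker : ∀ a ∈ maximalIdeal A, ∑ r, c r * D.μ r (e * a) = 0 := by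
        intro a ha
        simp only [D.mu_mul h3, (hε a).1 ha, (hε e).1 hem, zero_mul, zero_add, hle',
          Finset.mul_sum]
        rw [Finset.sum_comm]
        simp only [Finset.sum_comm (γ := Fin 2)]
        rw [Finset.sum_comm]
        refine Finset.sum_eq_zero fun j _ => ?_
        have h2 : ∑ i, ∑ r, c r * (z i * D.l j a * D.β i j r) =
            D.l j a * ∑ i, (∑ r, c r * D.β i j r) * z i := by
          rw [Finset.mul_sum]
          refine Finset.sum_congr rfl fun i _ => ?_
          rw [Finset.sum_mul, Finset.mul_sum]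
          exact Finset.sum_congr rfl fun r _ => by ring
        rw [h2, hcz', mul_zero]
      have hlt : Ideal.span {e} * maximalIdeal A < (maximalIdeal A) ^ 2 := by
        refine lt_of_le_of_ne (hle e hem) fun heq => hc0 ?_
        funext r
        have h1 : D.y r ∈ Ideal.span {e} * maximalIdeal A := by
          rw [heq]; exact D.hy r
        obtain ⟨a, ha, hae⟩ := Ideal.mem_span_singleton_mul.1 h1
        have h2 := hker a ha
        rw [hae] at h2
        simpa [D.μy] using h2
      have := finrank_ideal_lt (k := k) hlt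
      omega

end Helper47.Rig
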