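import Pool.Agent.Helper47.Rig.CaseThree
import Pool.Agent.Helper47.Rig.Zero

namespace Helper47.Rig

open Module IsLocalRing MvPolynomial

universe u v

variable {k : Type u} [Field k] {v w : ℕ}

/-- parameters -/
abbrev Par (v w : ℕ) (z₀ : Fin v × Fin v) : Type :=
  {z : Fin v × Fin v // z ≠ z₀} ⊕ (Fin w × Fin w)

lemma card_par (z₀ : Fin v × Fin v) : Fintype.card (Par v w z₀) + 1 = v * v + w * w := by
  rw [Fintype.card_sum, Fintype.card_subtype_compl, Fintype.card_prod, Fintype.card_prod,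
    Fintype.card_fin, Fintype.card_fin, Fintype.card_subtype_eq]
  have : 0 < v := Fin.pos z₀.1
  have : 1 ≤ v * v := Nat.mul_pos this this
  omega

/-- entries of the matrix `g` with one entry normalised to `1` -/
noncomputable def gpar (k : Type u) [Field k] (z₀ : Fin v × Fin v) (z : Fin v × Fin v) :
    MvPolynomial (Par v w z₀) k :=
  if h : z = z₀ then 1 else X (Sum.inl ⟨z, h⟩)

/-- the parametrisation -/
noncomputable def qpar (β : Fin v → Fin v → Fin w → k) (z₀ : Fin v × Fin v)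
    (σ : Sym2 (Fin v) × Fin w) : MvPolynomial (Par v w z₀) k :=
  ∑ p, ∑ q, ∑ r, gpar k z₀ (p, (Quot.out σ.1).1) * gpar k z₀ (q, (Quot.out σ.1).2) *
    C (β p q r) * X (Sum.inr (σ.2, r))

lemma exists_param (hv : 0 < v) (β : Fin v → Fin v → Fin w → k)
    (x : Sym2 (Fin v) × Fin w → k) (g : Fin v → Fin v → k) (h : Fin w → Fin w → k)
    (hx : ∀ i j t, x (s(i, j), t) = ∑ p, ∑ q, ∑ r, g p i * g q j * β p q r * h t r) :
    ∃ (z₀ : Fin v × Fin v) (y : Par v w z₀ → k), ∀ σ, x σ = eval y (qpar β z₀ σ) := by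
  by_cases hg : ∃ p i, g p i ≠ 0
  · obtain ⟨p₀, i₀, hg₀⟩ := hg
    set c := g p₀ i₀ with hc
    refine ⟨(p₀, i₀), Sum.elim (fun z => c⁻¹ * g z.1.1 z.1.2) (fun z => c ^ 2 * h z.1 z.2),
      fun σ => ?_⟩
    obtain ⟨σ, t⟩ := σ
    have hσ : s((Quot.out σ).1, (Quot.out σ).2) = σ := Quot.out_eq _
    conv_lhs => rw [← hσ]
    rw [hx]
    have hgp : ∀ z : Fin v × Fin v, eval (Sum.elim (fun z : {z : Fin v × Fin v // z ≠ (p₀, i₀)} =>
        c⁻¹ * g z.1.1 z.1.2) (fun z : Fin w × Fin w => c ^ 2 * h z.1 z.2))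
        (gpar k (p₀, i₀) z) = c⁻¹ * g z.1 z.2 := by
      intro z
      rw [gpar]
      split_ifs with hz
      · rw [map_one, hz, ← hc, inv_mul_cancel₀ hg₀]
      · rw [eval_X, Sum.elim_inl]
    simp only [qpar, map_sum, map_mul, hgp, eval_C, eval_X, Sum.elim_inr]
    refine Finset.sum_congr rfl fun p _ => Finset.sum_congr rfl fun q _ =>
      Finset.sum_congr rfl fun r _ => ?_
    field_simp
  · push Not at hg
    refine ⟨(⟨0, hv⟩, ⟨0, hv⟩), fun _ => 0, fun σ => ?_⟩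
    obtain ⟨σ, t⟩ := σ
    have hσ : s((Quot.out σ).1, (Quot.out σ).2) = σ := Quot.out_eq _
    conv_lhs => rw [← hσ]
    rw [hx]
    simp [qpar, hg]

/-- the hypersurface which contains all the members of the family isomorphic to the given one -/
lemma exists_hypersurface (hcard : v * v + w * w ≤ Fintype.card (Sym2 (Fin v)) * w)
    (hv : 0 < v) (β : Fin v → Fin v → Fin w → k) :
    ∃ G : MvPolynomial (Sym2 (Fin v) × Fin w) k, G ≠ 0 ∧
      ∀ (x : Sym2 (Fin v) × Fin w → k) (g : Fin v → Fin v → k) (h : Fin w → Fin w → k),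
      (∀ i j t, x (s(i, j), t) = ∑ p, ∑ q, ∑ r, g p i * g q j * β p q r * h t r) →
        eval x G = 0 := by
  have hF : ∀ z₀ : Fin v × Fin v, ∃ F : MvPolynomial (Sym2 (Fin v) × Fin w) k, F ≠ 0 ∧
      bind₁ (qpar β z₀) F = 0 := by
    intro z₀
    refine exists_alg_relation ?_ _
    rw [Fintype.card_prod, Fintype.card_fin]
    have := card_par (v := v) (w := w) z₀
    omega
  choose F hF0 hF using hF
  refine ⟨∏ z₀, F z₀, Finset.prod_ne_zero_iff.2 fun z₀ _ => hF0 z₀, fun x g h hx => ?_⟩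
  obtain ⟨z₀, y, hy⟩ := exists_param hv β x g h hx
  rw [map_prod]
  refine Finset.prod_eq_zero (Finset.mem_univ z₀) ?_
  have h1 : eval x (F z₀) = eval y (bind₁ (qpar β z₀) (F z₀)) := by
    have h2 : x = fun σ => eval y (qpar β z₀ σ) := funext hy
    rw [h2]
    exact (MvPolynomial.eval₂Hom_bind₁ (RingHom.id k) y (qpar β z₀) (F z₀)).symm
  rw [h1, hF, map_zero]

variable {A : Type v} [CommRing A] [Algebra k A] [IsLocalRing A] {ε : A →ₐ[k] k}

theorem Dec.not_rigid_count [IsAlgClosed k] [Module.Finite k A] (D : Dec ε v w)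
    (hε : ∀ a, a ∈ maximalIdeal A ↔ ε a = 0) (h3 : maximalIdeal A ^ 3 = ⊥)
    (hcard : v * v + w * w ≤ Fintype.card (Sym2 (Fin v)) * w) (hv : 0 < v) :
    ¬ Rigid k A := by
  haveI : Infinite k := IsAlgClosed.instInfinite
  obtain ⟨G, hG0, hG⟩ := exists_hypersurface hcard hv D.β
  let x₀ : Sym2 (Fin v) × Fin w → k := fun σ =>
    Sym2.lift ⟨fun i j => D.β i j σ.2, fun i j => D.β_symm i j σ.2⟩ σ.1
  refine not_rigid_of_family (fun x => D.M x) D.polyFam (D.isMul hε h3) x₀ ?_ G hG0 ?_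
  · intro a b
    rw [D.M_apply, D.F_apply]
    have : ∀ i j r, x₀ (s(i, j), r) = D.β i j r := fun i j r => rfl
    simp [this]
  · intro x hx hiso
    obtain ⟨g, h, hgh⟩ := D.iso_formula hε h3 x hiso
    exact hx (hG x g h hgh)

end Helper47.Rig
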