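import Pool.Agent.Helper47.Rig.Intr

namespace Helper47.Rig

open Module IsLocalRing

universe u v

variable {k : Type u} [Field k] {A : Type v} [CommRing A] [Algebra k A]

/-- A decomposition `A = k ⊕ V ⊕ 𝔪²` with bases. -/
structure Dec [IsLocalRing A] (ε : A →ₐ[k] k) (v w : ℕ) where
  x : Fin v → A
  y : Fin w → A
  l : Fin v → (A →ₗ[k] k)
  μ : Fin w → (A →ₗ[k] k)
  hx : ∀ i, x i ∈ maximalIdeal A
  hy : ∀ j, y j ∈ (maximalIdeal A) ^ 2
  dec : ∀ a, a = ε a • 1 + ∑ i, l i a • x i + ∑ j, μ j a • y j
  lx : ∀ i i', l i (x i') = if i' = i then 1 else 0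
  l1 : ∀ i, l i 1 = 0
  l2 : ∀ i, ∀ a ∈ (maximalIdeal A) ^ 2, l i a = 0
  μx : ∀ j i, μ j (x i) = 0
  μ1 : ∀ j, μ j 1 = 0
  μy : ∀ j j', μ j (y j') = if j' = j then 1 else 0

lemma exists_dec [IsLocalRing A] [Module.Finite k A] (ε : A →ₐ[k] k)
    (hε : ∀ a, a ∈ maximalIdeal A ↔ ε a = 0) :
    ∃ v : ℕ, finrank k A = 1 + v + finrank k ((maximalIdeal A) ^ 2 : Ideal A) ∧
      Nonempty (Dec ε v (finrank k ((maximalIdeal A) ^ 2 : Ideal A))) := by
  classical
  set M : Submodule k A := (maximalIdeal A).restrictScalars k with hM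
  set W : Submodule k A := ((maximalIdeal A) ^ 2).restrictScalars k with hW
  have hWM : W ≤ M := fun a ha => Ideal.pow_le_self two_ne_zero ha
  obtain ⟨V', hV'⟩ := Submodule.exists_isCompl W
  set V : Submodule k A := V' ⊓ M with hV
  have hdisj : Disjoint V W := hV'.symm.disjoint.mono_left inf_le_left
  have hsup : V ⊔ W = M := by
    rw [hV, sup_comm, ← sup_inf_assoc_of_le V' hWM, hV'.sup_eq_top, top_inf_eq]
  let Φ : (k × V × W) →ₗ[k] A :=
    LinearMap.coprod (LinearMap.toSpanSingleton k A 1) (LinearMap.coprod V.subtype W.subtype)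
  have hΦ : ∀ p : k × V × W, Φ p = p.1 • (1 : A) + ((p.2.1 : A) + (p.2.2 : A)) := by
    intro p
    simp [Φ]
  have hεM : ∀ a ∈ M, ε a = 0 := fun a ha => (hε a).1 ha
  have hVM : V ≤ M := inf_le_right
  have hinj : Function.Injective Φ := by
    rw [← LinearMap.ker_eq_bot, LinearMap.ker_eq_bot']
    rintro ⟨c, a, b⟩ h
    rw [hΦ] at h
    simp only at h
    have h1 := congrArg ε h
    rw [map_add, map_smul, map_one, map_add, hεM _ (hVM a.2), hεM _ (hWM b.2), map_zero] at h1
    have hc : c = 0 := by simpa using h1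
    rw [hc, zero_smul, zero_add] at h
    have ha : (a : A) ∈ V ⊓ W := ⟨a.2, by
      rw [eq_neg_of_add_eq_zero_left h]
      exact W.neg_mem b.2⟩
    rw [hdisj.eq_bot] at ha
    have ha' : (a : A) = 0 := by simpa using ha
    have hb' : (b : A) = 0 := by rwa [ha', zero_add] at h
    ext
    · exact hc
    · exact ha'
    · exact hb'
  have hsurj : Function.Surjective Φ := by
    intro a
    have h1 : a - ε a • 1 ∈ M := by
      change _ ∈ maximalIdeal A
      rw [hε, map_sub, map_smul, map_one, smul_eq_mul, mul_one, sub_self]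
    rw [← hsup] at h1
    obtain ⟨p, hp, q, hq, hpq⟩ := Submodule.mem_sup.1 h1
    refine ⟨(ε a, ⟨p, hp⟩, ⟨q, hq⟩), ?_⟩
    rw [hΦ]
    simp only
    rw [hpq]
    abel
  let E : (k × V × W) ≃ₗ[k] A := LinearEquiv.ofBijective Φ ⟨hinj, hsurj⟩
  have hE : ∀ p : k × V × W, E p = p.1 • (1 : A) + ((p.2.1 : A) + (p.2.2 : A)) := hΦ
  have hEs : ∀ (c : k) (a : V) (b : W), E.symm (c • (1 : A) + ((a : A) + (b : A))) =
      (c, a, b) := by
    intro c a b
    rw [LinearEquiv.symm_apply_eq, hE]
  have hEsV : ∀ (a : V), E.symm (a : A) = (0, a, 0) := by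
    intro a
    rw [LinearEquiv.symm_apply_eq, hE]; simp
  have hEsW : ∀ (b : A) (hb : b ∈ W), E.symm b = (0, 0, ⟨b, hb⟩) := by
    intro b hb
    rw [LinearEquiv.symm_apply_eq, hE]; simp
  have hEs1 : E.symm (1 : A) = (1, 0, 0) := by
    rw [LinearEquiv.symm_apply_eq, hE]; simp
  let bV := finBasis k V
  let bW : Basis (Fin (finrank k ((maximalIdeal A) ^ 2 : Ideal A))) k W := finBasis k W
  refine ⟨finrank k V, ?_, ⟨?_⟩⟩
  · rw [← E.finrank_eq, finrank_prod, finrank_prod, finrank_self]
    rw [← add_assoc]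
    rfl
  · exact
      { x := fun i => (bV i : A)
        y := fun j => (bW j : A)
        l := fun i => (bV.coord i) ∘ₗ (LinearMap.fst k V W) ∘ₗ (LinearMap.snd k k (V × W)) ∘ₗ
          E.symm.toLinearMap
        μ := fun j => (bW.coord j) ∘ₗ (LinearMap.snd k V W) ∘ₗ (LinearMap.snd k k (V × W)) ∘ₗ
          E.symm.toLinearMap
        hx := fun i => hVM (bV i).2
        hy := fun j => (bW j).2
        dec := fun a => by
          obtain ⟨⟨c, p, q⟩, rfl⟩ := E.surjective a
          have h1 : ε (E (c, p, q)) = c := by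
            rw [hE, map_add, map_smul, map_one, map_add, hεM _ (hVM p.2), hεM _ (hWM q.2)]
            simp
          have h2 : ∑ i, (bV.coord i p) • (bV i : A) = p := by
            have := congrArg V.subtype (bV.sum_repr p)
            rw [map_sum] at this
            exact this
          have h3 : ∑ i, (bW.coord i q) • (bW i : A) = q := by
            have := congrArg W.subtype (bW.sum_repr q)
            rw [map_sum] at this
            exact this
          rw [h1]
          simp only [LinearMap.comp_apply, LinearEquiv.coe_coe, LinearEquiv.symm_apply_apply,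
            LinearMap.snd_apply, LinearMap.fst_apply]
          rw [h2, h3, hE, add_assoc]
        lx := fun i i' => by
          simp only [LinearMap.comp_apply, LinearEquiv.coe_coe, hEsV, LinearMap.snd_apply,
            LinearMap.fst_apply, Basis.coord_apply, Basis.repr_self, Finsupp.single_apply]
        l1 := fun i => by
          simp [hEs1]
        l2 := fun i a ha => by
          simp [hEsW a ha]
        μx := fun j i => by
          simp [hEsV]
        μ1 := fun j => by
          simp [hEs1]
        μy := fun j j' => by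
          simp only [LinearMap.comp_apply, LinearEquiv.coe_coe, hEsW _ (bW j').2,
            LinearMap.snd_apply, Basis.coord_apply]
          rw [Basis.repr_self, Finsupp.single_apply] }

end Helper47.Rig
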