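import Pool.Agent.Helper47.Rig.Defs

namespace Helper47.Rig

open MvPolynomial Module

universe u v

variable {k : Type u} [Field k] {A : Type v} [CommRing A] [Algebra k A]

/-- A bilinear multiplication on the vector space `A` with unit `1`. -/
structure IsMul (m : A →ₗ[k] A →ₗ[k] A) : Prop where
  comm : ∀ a b, m a b = m b a
  assoc : ∀ a b c, m (m a b) c = m a (m b c)
  one_mul : ∀ a, m 1 a = a

/-- A polynomial family of bilinear multiplications. -/
def PolyFam {σ : Type*} (M : (σ → k) → (A →ₗ[k] A →ₗ[k] A)) : Prop :=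
  ∀ (ξ : A →ₗ[k] k) (a b : A), ∃ q : MvPolynomial σ k, ∀ x, ξ (M x a b) = eval x q

/-- The table of a bilinear map in a basis. -/
noncomputable def tabOf {r : ℕ} (b : Basis (Fin r) k A) (m : A →ₗ[k] A →ₗ[k] A) : Tab k r where
  mul := fun i j l => b.repr (m (b i) (b j)) l
  one := fun i => b.repr 1 i

lemma sum_repr_mul {r : ℕ} (b : Basis (Fin r) k A) (ξ : A →ₗ[k] k) (a : A) :
    ∑ i, b.repr a i * ξ (b i) = ξ a := by
  have h := congrArg ξ (b.sum_repr a)
  rw [map_sum] at h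
  rw [← h]
  refine Finset.sum_congr rfl fun i _ => ?_
  rw [map_smul, smul_eq_mul]

lemma tabOf_isAlg {r : ℕ} (b : Basis (Fin r) k A) (m : A →ₗ[k] A →ₗ[k] A) (hm : IsMul m) :
    IsAlg (tabOf b m) := by
  have h1 : ∀ a c : A, ∀ n, ∑ m', b.repr a m' * b.repr (m (b m') c) n = b.repr (m a c) n :=
    fun a c n => sum_repr_mul b ((b.coord n) ∘ₗ (m.flip c)) a
  have h2 : ∀ a c : A, ∀ n, ∑ m', b.repr a m' * b.repr (m c (b m')) n = b.repr (m c a) n :=
    fun a c n => sum_repr_mul b ((b.coord n) ∘ₗ (m c)) a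
  refine ⟨fun i j l => ?_, fun i j l n => ?_, fun j l => ?_⟩
  · simp only [tabOf]
    rw [hm.comm (b i) (b j)]
  · simp only [tabOf]
    rw [h1, h2, hm.assoc]
  · simp only [tabOf]
    rw [h1, hm.one_mul, b.repr_self, Finsupp.single_apply]

lemma represents_tabOf {r : ℕ} (b : Basis (Fin r) k A) (m : A →ₗ[k] A →ₗ[k] A) 
    (hm : ∀ x y, m x y = x * y) : Represents A (tabOf b m) := by
  refine ⟨b, fun i j => ?_, ?_⟩
  · simp only [tabOf, hm]
    rw [b.sum_repr]
  · simp only [tabOf]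
    rw [b.sum_repr]

/-- an isomorphism of `(A, m)` with `A` -/
def IsoMul (m : A →ₗ[k] A →ₗ[k] A) : Prop :=
  ∃ φ : A ≃ₗ[k] A, ∀ a b, φ (m a b) = φ a * φ b

lemma isoMul_of_represents {r : ℕ} (b : Basis (Fin r) k A) (m : A →ₗ[k] A →ₗ[k] A)
    (h : Represents A (tabOf b m)) : IsoMul m := by
  obtain ⟨b', hb', -⟩ := h
  refine ⟨b.equiv b' (Equiv.refl _), ?_⟩
  set φ : A ≃ₗ[k] A := b.equiv b' (Equiv.refl _) with hφ
  have hφb : ∀ i, φ (b i) = b' i := fun i => by simp [hφ]
  let F : A →ₗ[k] A →ₗ[k] A := (LinearMap.compr₂ m φ.toLinearMap)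
  let G : A →ₗ[k] A →ₗ[k] A := (LinearMap.mul k A).compl₁₂ φ.toLinearMap φ.toLinearMap
  have : F = G := by
    refine b.ext fun i => b.ext fun j => ?_
    simp only [F, G, LinearMap.compr₂_apply, LinearMap.compl₁₂_apply, LinearEquiv.coe_coe,
      LinearMap.mul_apply', hφb]
    rw [hb']
    conv_lhs => rw [← b.sum_repr (m (b i) (b j))]
    rw [map_sum]
    refine Finset.sum_congr rfl fun l _ => ?_
    rw [map_smul, hφb]
    rfl
  intro a c
  have := congrArg (fun H : A →ₗ[k] A →ₗ[k] A => H a c) this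
  simpa [F, G] using this

/-- The family lemma. -/
theorem not_rigid_of_family [Infinite k] [Module.Finite k A] {σ : Type*}
    (M : (σ → k) → (A →ₗ[k] A →ₗ[k] A)) (hM : PolyFam M) (hmul : ∀ x, IsMul (M x))
    (x₀ : σ → k) (hx₀ : ∀ a b, M x₀ a b = a * b) (g : MvPolynomial σ k) (hg : g ≠ 0)
    (hiso : ∀ x, eval x g ≠ 0 → ¬ IsoMul (M x)) : ¬ Rigid k A := by
  rintro ⟨S, hS⟩
  set b : Basis (Fin (finrank k A)) k A := finBasis k A with hb
  have hrep : Represents A (tabOf b (M x₀)) := represents_tabOf b _ hx₀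
  obtain ⟨f, hfS, hf⟩ := (hS _ (tabOf_isAlg b _ (hmul x₀))).1 hrep
  -- the polynomials giving the table
  choose q hq using fun (x : (Fin (finrank k A) × Fin (finrank k A) × Fin (finrank k A))) =>
    hM (b.coord x.2.2) (b x.1) (b x.2.1)
  let Q : ((Fin (finrank k A) × Fin (finrank k A) × Fin (finrank k A)) ⊕
      Fin (finrank k A)) → MvPolynomial σ k :=
    Sum.elim q (fun i => C (b.repr 1 i))
  have hQ : ∀ x, (fun i => eval x (Q i)) = (tabOf b (M x)).coord := by
    intro x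
    funext i
    rcases i with i | i
    · simp only [Q, Sum.elim_inl, Tab.coord, tabOf]
      rw [← hq i x]
      rfl
    · simp [Q, Tab.coord, tabOf]
  have hev : ∀ x, eval x (bind₁ Q f) = eval (tabOf b (M x)).coord f := by
    intro x
    rw [← hQ x]
    exact MvPolynomial.eval₂Hom_bind₁ (RingHom.id k) x Q f
  have hF : bind₁ Q f ≠ 0 := by
    intro h0
    apply hf
    rw [← hev, h0, map_zero]
  have hprod : bind₁ Q f * g ≠ 0 := mul_ne_zero hF hg
  obtain ⟨x, hx⟩ : ∃ x, eval x (bind₁ Q f * g) ≠ 0 := by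
    by_contra hcon
    push Not at hcon
    exact hprod (MvPolynomial.funext fun x => by rw [hcon x, map_zero])
  rw [map_mul] at hx
  have hx1 := left_ne_zero_of_mul hx
  have hx2 := right_ne_zero_of_mul hx
  rw [hev] at hx1
  have := (hS _ (tabOf_isAlg b _ (hmul x))).2 ⟨f, hfS, hx1⟩
  exact hiso x hx2 (isoMul_of_represents b _ this)

end Helper47.Rig
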