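import Pool.Agent.Helper47.Rig.Count
import Pool.Agent.Helper47.Rig.CaseTwo

namespace Helper47.Rig

open Module IsLocalRing

universe u v

lemma arith_ineq {v w N : ℕ} (hN : 2 * N = v * (v + 1)) (hw : 3 ≤ w) (h : w + v ≤ N) :
    v * v + w * w ≤ N * w := by
  have hv : 3 ≤ v := by
    by_contra hcon
    have : v = 0 ∨ v = 1 ∨ v = 2 := by omega
    rcases this with rfl | rfl | rfl <;> omega
  obtain ⟨m, rfl⟩ := Nat.exists_eq_add_of_le h
  rcases Nat.lt_or_ge w v with hlt | hge
  · obtain ⟨a, rfl⟩ := Nat.exists_eq_add_of_le hw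
    obtain ⟨b, rfl⟩ := Nat.exists_eq_add_of_le hv
    nlinarith [Nat.zero_le (a * b), Nat.zero_le (a * m)]
  · nlinarith [Nat.mul_le_mul_right v hge]

theorem not_rigid_cube_zero (k : Type u) [Field k] [IsAlgClosed k] (A : Type v) [CommRing A]
    [IsLocalRing A] [Algebra k A] [Module.Finite k A] (h2 : 2 ≤ finrank k A)
    (h3 : maximalIdeal A ^ 3 = ⊥) : ¬ Rigid k A := by
  obtain ⟨ε, hε⟩ := exists_aug (k := k) (A := A)
  obtain ⟨v, hdim, ⟨D⟩⟩ := exists_dec ε hε
  have hfin : finrank k ((maximalIdeal A) ^ 2 : Ideal A) =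
    finrank k ((maximalIdeal A) ^ 2 : Ideal A) := rfl
  have hv : 0 < v := by
    rcases Nat.eq_zero_or_pos v with hv0 | hv0
    · exfalso
      subst hv0
      have hw : 0 < finrank k ((maximalIdeal A) ^ 2 : Ideal A) := by omega
      have := D.indep hε h3 (fun _ => 1) (fun i => i.elim0)
      exact one_ne_zero (congrFun this ⟨0, hw⟩)
    · exact hv0
  rcases Nat.lt_or_ge (finrank k ((maximalIdeal A) ^ 2 : Ideal A)) 3 with hw | hw
  · exact D.not_rigid_le_two hε h3 rfl (by omega) hv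
  rcases Nat.lt_or_ge (Fintype.card (Sym2 (Fin v)))
    (finrank k ((maximalIdeal A) ^ 2 : Ideal A) + v) with h | h
  · obtain ⟨z, hz0, c, hc⟩ := D.exists_rank_one hε h3 h
    exact D.not_rigid_rank_one hε h3 z hz0 c hc
  · refine D.not_rigid_count hε h3 ?_ hv
    refine arith_ineq ?_ hw h
    rw [Sym2.card, Fintype.card_fin, Nat.choose_two_right]
    have := Nat.even_mul_succ_self v
    have h5 : 2 ∣ (v + 1) * (v + 1 - 1) := by
      rw [Nat.add_sub_cancel, mul_comm]; exact this.two_dvd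
    rw [Nat.mul_div_cancel' h5, Nat.add_sub_cancel, mul_comm]

end Helper47.Rig
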