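import Pool.Agent.Helper47.Rig.Small
import Pool.Agent.Helper47.Rig.Arc

namespace Helper47.Rig

open Module IsLocalRing

universe u v

variable {k : Type u} [Field k] {A : Type v} [CommRing A] [Algebra k A]

/-- nilpotent eigenvalue -/
lemma smul_eq_zero_of_nilp {a s : A} {c : k} (ha : IsNilpotent a) (h : s * a = c • s) :
    s * a = 0 := by
  obtain ⟨n, hn⟩ := ha
  have h1 : ∀ n : ℕ, s * a ^ n = c ^ n • s := by
    intro n
    induction n with
    | zero => simp
    | succ n ih => rw [pow_succ, ← mul_assoc, ih, smul_mul_assoc, h, smul_smul, pow_succ]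
  have h2 := h1 n
  rw [hn, mul_zero] at h2
  have h3 := (smul_eq_zero.1 h2.symm)
  rcases h3 with h3 | h3
  · rw [h, eq_zero_of_pow_eq_zero h3, zero_smul]
  · rw [h3, zero_mul]

lemma mem_max_nilp [IsLocalRing A] [Module.Finite k A] {a : A} (ha : a ∈ maximalIdeal A) :
    IsNilpotent a := by
  haveI : IsArtinianRing A := IsArtinianRing.of_finite k A
  obtain ⟨n, hn⟩ := IsArtinianRing.isNilpotent_jacobson_bot (R := A)
  rw [IsLocalRing.jacobson_eq_maximalIdeal _ bot_ne_top] at hn
  refine ⟨n, ?_⟩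
  have := Ideal.pow_mem_pow ha n
  rw [hn] at this
  simpa using this

/-- A functional which vanishes on `1` and `𝔪²` is an `ε`-derivation. -/
lemma deriv_of_vanish [IsLocalRing A] (ε : A →ₐ[k] k) (hε : ∀ a, a ∈ maximalIdeal A ↔ ε a = 0)
    (l : A →ₗ[k] k) (h1 : l 1 = 0) (h2 : ∀ a ∈ (maximalIdeal A) ^ 2, l a = 0) (a b : A) :
    l (a * b) = ε a * l b + ε b * l a := by
  have ha : a - ε a • 1 ∈ maximalIdeal A := by
    rw [hε, map_sub, map_smul, map_one, smul_eq_mul, mul_one, sub_self]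
  have hb : b - ε b • 1 ∈ maximalIdeal A := by
    rw [hε, map_sub, map_smul, map_one, smul_eq_mul, mul_one, sub_self]
  have hab : (a - ε a • 1) * (b - ε b • 1) ∈ (maximalIdeal A) ^ 2 := by
    rw [pow_two]; exact Ideal.mul_mem_mul ha hb
  have h3 := h2 _ hab
  have h4 : (a - ε a • 1) * (b - ε b • 1) = a * b - ε a • b - ε b • a + (ε a * ε b) • 1 := by
    simp only [sub_mul, mul_sub, smul_mul_assoc, mul_smul_comm, one_mul, mul_one, smul_sub,
      smul_smul]
    module
  rw [h4] at h3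
  simp only [map_add, map_sub, map_smul, h1, smul_eq_mul, mul_zero, add_zero] at h3
  linear_combination h3

lemma exists_functional [IsLocalRing A] (ε : A →ₐ[k] k)
    (hε : ∀ a, a ∈ maximalIdeal A ↔ ε a = 0) (e : A) (he : e ∈ maximalIdeal A)
    (he2 : e ∉ (maximalIdeal A) ^ 2) :
    ∃ l : A →ₗ[k] k, l 1 = 0 ∧ (∀ a ∈ (maximalIdeal A) ^ 2, l a = 0) ∧ l e = 1 := by
  let U : Submodule k A := (k ∙ (1 : A)) ⊔ ((maximalIdeal A) ^ 2).restrictScalars k
  have heU : e ∉ U := by
    intro h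
    obtain ⟨x, hx, y, hy, hxy⟩ := Submodule.mem_sup.1 h
    obtain ⟨c, rfl⟩ := Submodule.mem_span_singleton.1 hx
    have hy' : y ∈ (maximalIdeal A) ^ 2 := hy
    have h1 : ε e = c := by
      rw [← hxy, map_add, map_smul, map_one, (hε y).1 (Ideal.pow_le_self two_ne_zero hy')]
      simp
    rw [(hε e).1 he] at h1
    apply he2
    rw [← hxy, ← h1, zero_smul, zero_add]
    exact hy'
  obtain ⟨f, hf, hfU⟩ := Submodule.exists_dual_map_eq_bot_of_notMem heU inferInstance
  have hfU' : ∀ u ∈ U, f u = 0 := by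
    intro u hu
    have : f u ∈ U.map f := Submodule.mem_map_of_mem hu
    rw [hfU] at this
    simpa using this
  refine ⟨(f e)⁻¹ • f, ?_, ?_, ?_⟩
  · rw [LinearMap.smul_apply, hfU' 1 (Submodule.mem_sup_left (Submodule.mem_span_singleton_self _)),
      smul_zero]
  · intro a ha
    rw [LinearMap.smul_apply, hfU' a (Submodule.mem_sup_right ha), smul_zero]
  · rw [LinearMap.smul_apply, smul_eq_mul, inv_mul_cancel₀ hf]

/-- If some `e ∈ 𝔪 ∖ 𝔪²` has `dim (e𝔪) ≤ 1`, then `A` is not rigid. -/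
theorem not_rigid_of_finrank_le_one [IsAlgClosed k] [Module.Finite k A] [IsLocalRing A] (e : A)
    (he : e ∈ maximalIdeal A) (he2 : e ∉ (maximalIdeal A) ^ 2)
    (h : finrank k (Ideal.span {e} * maximalIdeal A : Ideal A) ≤ 1) : ¬ Rigid k A := by
  haveI : Infinite k := IsAlgClosed.instInfinite
  obtain ⟨ε, hε⟩ := exists_aug (k := k) (A := A)
  obtain ⟨l, hl1, hl2, hle⟩ := exists_functional ε hε e he he2
  obtain ⟨s', hs'⟩ := finrank_le_one_iff.1 h
  obtain ⟨s, hsmem⟩ := s'
  have hs : ∀ a ∈ maximalIdeal A, ∃ c : k, c • s = e * a := by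
    intro a ha
    obtain ⟨c, hc⟩ := hs' ⟨e * a, Ideal.mul_mem_mul (Ideal.mem_span_singleton_self e) ha⟩
    exact ⟨c, congrArg Subtype.val hc⟩
  have hs1 : ∀ a ∈ maximalIdeal A, s * a = 0 := by
    intro a ha
    obtain ⟨c, hc⟩ := hs' ⟨s * a, Ideal.mul_mem_right _ _ hsmem⟩
    exact smul_eq_zero_of_nilp (c := c) (mem_max_nilp (k := k) ha)
      (congrArg Subtype.val hc).symm
  have hεe : ε e = 0 := (hε e).1 he
  have hsm2 : s ∈ (maximalIdeal A) ^ 2 := by
    rw [pow_two]
    exact Ideal.mul_mono_left ((Ideal.span_singleton_le_iff_mem _).2 he) hsmem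
  have hεs : ε s = 0 := (hε s).1 (Ideal.pow_le_self two_ne_zero hsm2)
  have hsa : ∀ a, s * a = ε a • s := by
    intro a
    have h1 := hs1 (a - ε a • 1) (by
      rw [hε, map_sub, map_smul, map_one, smul_eq_mul, mul_one, sub_self])
    rw [mul_sub, mul_smul_comm, mul_one, sub_eq_zero] at h1
    exact h1
  have he0 : ∀ a ∈ (maximalIdeal A) ^ 2, e * a = 0 := by
    intro a ha
    rw [pow_two] at ha
    induction ha using Submodule.mul_induction_on' with
    | mem_mul_mem b hb c hc =>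
      obtain ⟨x, hx⟩ := hs b hb
      rw [← mul_assoc, ← hx, smul_mul_assoc, hs1 c hc, smul_zero]
    | add x _ y _ hx hy => rw [mul_add, hx, hy, add_zero]
  obtain ⟨lam, hlam1, hlam, hlam2⟩ : ∃ lam : A →ₗ[k] k, lam 1 = 0 ∧
      (∀ a, e * a = ε a • e + lam a • s) ∧ (∀ a ∈ (maximalIdeal A) ^ 2, lam a = 0) := by
    by_cases hs0 : s = 0
    · refine ⟨0, rfl, fun a => ?_, fun a _ => rfl⟩
      obtain ⟨c, hc⟩ := hs (a - ε a • 1) (by
        rw [hε, map_sub, map_smul, map_one, smul_eq_mul, mul_one, sub_self])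
      rw [hs0, smul_zero, mul_sub, mul_smul_comm, mul_one, eq_comm, sub_eq_zero] at hc
      rw [hc, hs0, smul_zero, add_zero]
    · obtain ⟨f, hf⟩ : ∃ f : A →ₗ[k] k, f s = 1 :=
        Module.Projective.exists_dual_eq_one k hs0
      have hmain : ∀ a, e * a = ε a • e +
          (f ∘ₗ (LinearMap.mul k A e) - (f e) • ε.toLinearMap) a • s := by
        intro a
        obtain ⟨c, hc⟩ := hs (a - ε a • 1) (by
          rw [hε, map_sub, map_smul, map_one, smul_eq_mul, mul_one, sub_self])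
        have h1 : e * a = ε a • e + c • s := by
          rw [hc, mul_sub, mul_smul_comm, mul_one]; abel
        have h2 : f (e * a) = ε a * f e + c := by
          rw [h1, map_add, map_smul, map_smul, hf, smul_eq_mul, smul_eq_mul, mul_one]
        have h3 : (f ∘ₗ (LinearMap.mul k A e) - (f e) • ε.toLinearMap) a = c := by
          simp only [LinearMap.sub_apply, LinearMap.comp_apply, LinearMap.mul_apply', h2,
            LinearMap.smul_apply, AlgHom.toLinearMap_apply, smul_eq_mul]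
          ring
        rw [h3, h1]
      refine ⟨f ∘ₗ (LinearMap.mul k A e) - (f e) • ε.toLinearMap, ?_, hmain, fun a ha => ?_⟩
      · simp
      · have h1 := hmain a
        rw [he0 a ha, (hε a).1 (Ideal.pow_le_self two_ne_zero ha), zero_smul, zero_add] at h1
        exact (smul_eq_zero.1 h1.symm).resolve_right hs0
  exact not_rigid_small ε l lam e s hl1 hlam1 (deriv_of_vanish ε hε l hl1 hl2)
    (deriv_of_vanish ε hε lam hlam1 hlam2) hle hlam hsa (hl2 s hsm2) (hlam2 s hsm2) hεe hεs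

end Helper47.Rig
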