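import Pool.Agent.Helper47.Rig.Dec

namespace Helper47.Rig

open Module IsLocalRing

universe u v

variable {k : Type u} [Field k] {A : Type v} [CommRing A] [Algebra k A] [IsLocalRing A]
  {ε : A →ₐ[k] k} {v w : ℕ}

/-- structure constants -/
noncomputable def Dec.β (D : Dec ε v w) (i j : Fin v) (r : Fin w) : k := D.μ r (D.x i * D.x j)

lemma Dec.β_symm (D : Dec ε v w) (i j : Fin v) (r : Fin w) : D.β i j r = D.β j i r := by
  rw [Dec.β, Dec.β, mul_comm]

lemma mul_zero_of (h3 : maximalIdeal A ^ 3 = ⊥) {a b : A} (ha : a ∈ maximalIdeal A)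
    (hb : b ∈ (maximalIdeal A) ^ 2) : a * b = 0 := by
  have h : a * b ∈ maximalIdeal A ^ 3 := by
    rw [show 3 = 1 + 2 by norm_num, pow_add, pow_one]
    exact Ideal.mul_mem_mul ha hb
  rw [h3] at h
  simpa using h

lemma Dec.prod_formula (D : Dec ε v w) (h3 : maximalIdeal A ^ 3 = ⊥) (a b : A) :
    a * b = ε a • b + ε b • a - (ε a * ε b) • 1 +
      ∑ i, ∑ j, (D.l i a * D.l j b) • (D.x i * D.x j) := by
  have hV : ∀ a, ∑ i, D.l i a • D.x i ∈ maximalIdeal A := fun a =>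
    Ideal.sum_mem _ fun i _ => Submodule.smul_of_tower_mem _ _ (D.hx i)
  have hW : ∀ a, ∑ j, D.μ j a • D.y j ∈ (maximalIdeal A) ^ 2 := fun a =>
    Ideal.sum_mem _ fun j _ => Submodule.smul_of_tower_mem _ _ (D.hy j)
  have h1 : (∑ i, D.l i a • D.x i) * (∑ j, D.l j b • D.x j) =
      ∑ i, ∑ j, (D.l i a * D.l j b) • (D.x i * D.x j) := by
    rw [Finset.sum_mul_sum]
    refine Finset.sum_congr rfl fun i _ => Finset.sum_congr rfl fun j _ => ?_
    rw [smul_mul_smul_comm]
  rw [← h1]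
  have ha := D.dec a
  have hb := D.dec b
  have hVW : ∀ a b, (∑ i, D.l i a • D.x i) * (∑ j, D.μ j b • D.y j) = 0 := fun a b =>
    mul_zero_of h3 (hV a) (hW b)
  have hWV : ∀ a b, (∑ j, D.μ j a • D.y j) * (∑ i, D.l i b • D.x i) = 0 := fun a b => by
    rw [mul_comm]; exact hVW b a
  have hWW : ∀ a b, (∑ j, D.μ j a • D.y j) * (∑ i, D.μ i b • D.y i) = 0 := fun a b =>
    mul_zero_of h3 (Ideal.pow_le_self two_ne_zero (hW a)) (hW b)
  set Va := ∑ i, D.l i a • D.x i with hVa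
  set Vb := ∑ i, D.l i b • D.x i with hVb
  set Wa := ∑ j, D.μ j a • D.y j with hWa
  set Wb := ∑ j, D.μ j b • D.y j with hWb
  have e1 := hVW a b
  have e2 := hWV a b
  have e3 := hWW a b
  rw [← hVa, ← hWb] at e1
  rw [← hVb, ← hWa] at e2
  rw [← hWa, ← hWb] at e3
  have ha' : a - ε a • 1 = Va + Wa := by
    rw [sub_eq_iff_eq_add]
    conv_lhs => rw [ha]
    abel
  have hb' : b - ε b • 1 = Vb + Wb := by
    rw [sub_eq_iff_eq_add]
    conv_lhs => rw [hb]
    abel
  have h : (a - ε a • 1) * (b - ε b • 1) = Va * Vb := by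
    rw [ha', hb', add_mul, mul_add, mul_add, e1, e2, e3]
    abel
  rw [← h]
  simp only [sub_mul, mul_sub, smul_mul_assoc, mul_smul_comm, one_mul, mul_one, smul_sub,
    smul_smul]
  module

lemma Dec.xx (D : Dec ε v w) (hε : ∀ a, a ∈ maximalIdeal A ↔ ε a = 0) (i j : Fin v) :
    D.x i * D.x j = ∑ r, D.β i j r • D.y r := by
  have hm : D.x i * D.x j ∈ (maximalIdeal A) ^ 2 := by
    rw [pow_two]; exact Ideal.mul_mem_mul (D.hx i) (D.hx j)
  have h := D.dec (D.x i * D.x j)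
  rw [(hε _).1 (Ideal.pow_le_self two_ne_zero hm), zero_smul, zero_add] at h
  rw [Finset.sum_eq_zero (fun i _ => by rw [D.l2 i _ hm, zero_smul]), zero_add] at h
  exact h

lemma Dec.mu_mul (D : Dec ε v w) (h3 : maximalIdeal A ^ 3 = ⊥) (a b : A) (r : Fin w) :
    D.μ r (a * b) = ε a * D.μ r b + ε b * D.μ r a +
      ∑ i, ∑ j, (D.l i a * D.l j b) * D.β i j r := by
  rw [D.prod_formula h3 a b]
  simp only [map_add, map_sub, map_smul, map_sum, D.μ1, smul_eq_mul, mul_zero, sub_zero]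
  rfl

lemma Dec.eq_sum_y (D : Dec ε v w) (hε : ∀ a, a ∈ maximalIdeal A ↔ ε a = 0) {a : A}
    (ha : a ∈ (maximalIdeal A) ^ 2) : a = ∑ r, D.μ r a • D.y r := by
  have h := D.dec a
  rw [(hε _).1 (Ideal.pow_le_self two_ne_zero ha), zero_smul, zero_add] at h
  rw [Finset.sum_eq_zero (fun i _ => by rw [D.l2 i _ ha, zero_smul]), zero_add] at h
  exact h

/-- the forms `β · · r` are linearly independent -/
lemma Dec.indep (D : Dec ε v w) (hε : ∀ a, a ∈ maximalIdeal A ↔ ε a = 0)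
    (h3 : maximalIdeal A ^ 3 = ⊥) (c : Fin w → k)
    (hc : ∀ i j, ∑ r, c r * D.β i j r = 0) : c = 0 := by
  have h1 : ∀ a ∈ (maximalIdeal A) ^ 2, ∑ r, c r * D.μ r a = 0 := by
    intro a ha
    rw [pow_two] at ha
    induction ha using Submodule.mul_induction_on' with
    | mem_mul_mem a ha b hb =>
      have : ∀ r, D.μ r (a * b) = ∑ i, ∑ j, (D.l i a * D.l j b) * D.β i j r := by
        intro r
        rw [D.mu_mul h3, (hε a).1 ha, (hε b).1 hb]
        simp
      simp only [this, Finset.mul_sum]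
      rw [Finset.sum_comm]
      refine Finset.sum_eq_zero fun i _ => ?_
      rw [Finset.sum_comm]
      refine Finset.sum_eq_zero fun j _ => ?_
      have h2 : ∀ r, c r * (D.l i a * D.l j b * D.β i j r) =
        (D.l i a * D.l j b) * (c r * D.β i j r) := fun r => by ring
      simp only [h2]
      rw [← Finset.mul_sum, hc, mul_zero]
    | add a _ b _ ha hb =>
      simp only [map_add, mul_add, Finset.sum_add_distrib, ha, hb, add_zero]
  funext r
  have h2 := h1 _ (D.hy r)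
  simpa [D.μy] using h2

end Helper47.Rig
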