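import Pool.Agent.Helper47.Rig.Split

namespace Helper47.Rig

open MvPolynomial Module IsLocalRing

universe u v

variable {k : Type u} [Field k] {A : Type v} [CommRing A] [Algebra k A]

theorem not_rigid_small [Infinite k] [Module.Finite k A] [IsLocalRing A] (ε : A →ₐ[k] k)
    (l lam : A →ₗ[k] k) (e s : A) (hl1 : l 1 = 0) (hlam1 : lam 1 = 0)
    (hld : ∀ a b, l (a * b) = ε a * l b + ε b * l a)
    (hlamd : ∀ a b, lam (a * b) = ε a * lam b + ε b * lam a)
    (hle : l e = 1) (he : ∀ a, e * a = ε a • e + lam a • s) (hs : ∀ a, s * a = ε a • s)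
    (hls : l s = 0) (hlams : lam s = 0) (hεe : ε e = 0) (hεs : ε s = 0) : ¬ Rigid k A := by
  let M : (Unit → k) → (A →ₗ[k] A →ₗ[k] A) := fun x =>
    LinearMap.mul k A + x () • rk l l s + x () • rk (lam + x () • l) (lam + x () • l) e
  have hMapp : ∀ x a b, M x a b = a * b + (x () * (l a * l b)) • s +
      (x () * ((lam a + x () * l a) * (lam b + x () * l b))) • e := by
    intro x a b
    simp [M, smul_smul, mul_assoc]
  have hMul : ∀ x, IsMul (M x) := by
    intro x
    set t := x () with ht
    have hcomm : ∀ a b, M x a b = M x b a := fun a b => by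
      rw [hMapp, hMapp, mul_comm a b, mul_comm (l a), mul_comm (lam a + _)]
    have hM1 : ∀ a b c, M x (M x a b) c = a * b * c + (t * (ε a * l b * l c + ε b * l a * l c +
          ε c * l a * l b)) • s + (t * (ε a * (lam b + t * l b) * (lam c + t * l c) +
          ε b * (lam a + t * l a) * (lam c + t * l c) +
          ε c * (lam a + t * l a) * (lam b + t * l b))) • e +
          (t * ((lam a + t * l a) * (lam b + t * l b) * (lam c + t * l c))) •
            (s + (t * (lam e + t)) • e) := by
      intro a b c
      rw [hMapp x a b, hMapp]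
      simp only [map_add, map_smul, smul_eq_mul, hle, hls, hlams, hld, hlamd, add_mul,
        smul_mul_assoc, hs, he, mul_one]
      module
    refine ⟨hcomm, fun a b c => ?_, fun a => ?_⟩
    · rw [hcomm a (M x b c), hM1, hM1, show b * c * a = a * b * c by ring]
      module
    · rw [hMapp, hl1, hlam1]
      simp
  refine not_rigid_of_family M ?_ hMul (fun _ => 0) ?_ (X () * (X () + C (lam e))) ?_ ?_
  · -- polynomial
    intro ξ a b
    refine ⟨C (ξ (a * b)) + X () * C (l a * l b) * C (ξ s) +
      X () * ((C (lam a) + X () * C (l a)) * (C (lam b) + X () * C (l b))) * C (ξ e), fun x => ?_⟩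
    rw [hMapp]
    simp [mul_assoc]
  · intro a b
    have := hMapp (fun _ => 0) a b
    simpa using this
  · -- nonzero polynomial
    refine mul_ne_zero (X_ne_zero _) ?_
    intro h
    have h1 := congrArg (eval (fun _ : Unit => (1 : k) - lam e)) h
    simp at h1
  · intro x hx hiso
    set t := x () with ht
    rw [map_mul, eval_X, map_add, eval_X, eval_C] at hx
    have ht0 : t ≠ 0 := left_ne_zero_of_mul hx
    have hθ : t + lam e ≠ 0 := right_ne_zero_of_mul hx
    have hee : e * e = lam e • s := by rw [he, hεe, zero_smul, zero_add]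
    have hse : s * e = 0 := by rw [hs, hεe, zero_smul]
    have hss : s * s = 0 := by rw [hs, hεs, zero_smul]
    have hes : e * s = 0 := by rw [mul_comm, hse]
    set y : A := s + (t * (lam e + t)) • e with hy
    have hMee : M x e e = (lam e + t) • y := by
      rw [hMapp, hee, hle, hy]
      module
    have hMse : M x s e = 0 := by
      rw [hMapp, hse, hls, hlams]; simp
    have hMes : M x e s = 0 := by
      rw [hMapp, hes, hls, hlams]; simp
    have hMss : M x s s = 0 := by
      rw [hMapp, hss, hls, hlams]; simp
    have hMyy : M x y y = (t ^ 2 * (lam e + t) ^ 3) • y := by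
      conv_lhs => rw [hy]
      simp only [map_add, map_smul, LinearMap.add_apply, LinearMap.smul_apply, hMee, hMse, hMes,
        hMss, smul_zero, zero_add, add_zero]
      module
    have hc : t ^ 2 * (lam e + t) ^ 3 ≠ 0 :=
      mul_ne_zero (pow_ne_zero _ ht0) (pow_ne_zero _ (by rwa [add_comm]))
    set c := t ^ 2 * (lam e + t) ^ 3 with hcdef
    have hidem : M x (c⁻¹ • y) (c⁻¹ • y) = c⁻¹ • y := by
      simp only [map_smul, LinearMap.smul_apply, hMyy, smul_smul]
      congr 1
      field_simp
    have hly : l (c⁻¹ • y) ≠ 0 := by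
      rw [map_smul, hy, map_add, map_smul, hls, hle]
      simp only [zero_add, smul_eq_mul, mul_one]
      exact mul_ne_zero (inv_ne_zero hc) (mul_ne_zero ht0 (by rwa [add_comm]))
    rcases idem_of_isoMul (hMul x) hiso hidem with h | h
    · rw [h, map_zero] at hly
      exact hly rfl
    · rw [h] at hly
      exact hly hl1

end Helper47.Rig
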