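import Pool.Agent.Helper47.Rig.Fam

namespace Helper47.Rig

open MvPolynomial Module IsLocalRing

universe u v

variable {k : Type u} [Field k] {A : Type v} [CommRing A] [Algebra k A]

/-- The augmentation of a finite local algebra over an algebraically closed field. -/
lemma exists_aug [IsAlgClosed k] [IsLocalRing A] [Module.Finite k A] :
    ∃ ε : A →ₐ[k] k, ∀ a, a ∈ maximalIdeal A ↔ ε a = 0 := by
  have hbij : Function.Bijective (algebraMap k (ResidueField A)) :=
    IsAlgClosed.algebraMap_bijective_of_isIntegral
  let E : k ≃ₐ[k] ResidueField A := AlgEquiv.ofBijective (Algebra.ofId k _) hbij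
  refine ⟨E.symm.toAlgHom.comp (IsScalarTower.toAlgHom k A (ResidueField A)), fun a => ?_⟩
  rw [← residue_eq_zero_iff]
  simp only [AlgHom.comp_apply]
  constructor
  · intro h
    have : (IsScalarTower.toAlgHom k A (ResidueField A)) a = 0 := h
    rw [this, map_zero]
  · intro h
    have := E.symm.injective (a₁ := (IsScalarTower.toAlgHom k A (ResidueField A)) a) (a₂ := 0)
      (by rw [map_zero]; exact h)
    exact this

/-- rank one bilinear map -/
noncomputable def rk (f g : A →ₗ[k] k) (s : A) : A →ₗ[k] A →ₗ[k] A :=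
  LinearMap.mk₂ k (fun a b => (f a * g b) • s)
    (by intro a a' b; rw [map_add, add_mul, add_smul])
    (by intro c a b; rw [map_smul, smul_eq_mul, mul_assoc, mul_smul])
    (by intro a b b'; rw [map_add, mul_add, add_smul])
    (by intro c a b; rw [map_smul, smul_eq_mul, mul_left_comm, mul_smul])

@[simp] lemma rk_apply (f g : A →ₗ[k] k) (s a b : A) : rk f g s a b = (f a * g b) • s := rfl

lemma idem_of_isoMul [IsLocalRing A] {m : A →ₗ[k] A →ₗ[k] A} (hm : IsMul m) (h : IsoMul m)
    {y : A} (hy : m y y = y) : y = 0 ∨ y = 1 := by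
  obtain ⟨φ, hφ⟩ := h
  have h1 : φ 1 = 1 := by
    obtain ⟨z, hz⟩ := φ.surjective 1
    have := hφ 1 z
    rw [hm.one_mul, hz, mul_one] at this
    exact this.symm
  have h2 : IsIdempotentElem (φ y) := by
    rw [IsIdempotentElem, ← hφ, hy]
  rcases IsLocalRing.isUnit_or_isUnit_one_sub_self (φ y) with hu | hu
  · right
    have : φ y = 1 := by
      have h3 : φ y * φ y = φ y * 1 := by rw [mul_one]; exact h2
      exact hu.mul_left_cancel h3
    apply φ.injective
    rw [this, h1]
  · left
    have : φ y = 0 := by
      have h3 : (1 - φ y) * φ y = 0 := by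
        rw [sub_mul, one_mul, sub_eq_zero]; exact h2.symm
      exact (hu.mul_right_eq_zero).1 h3
    apply φ.injective
    rw [this, map_zero]

end Helper47.Rig
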